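import Pool.Agent.Helper52.NF.St2

set_option autoImplicit false

/-! Module DIM of the project NF (helper52): lower bound for the dimension of the cycle space. -/

namespace Pool.Agent.Helper32.NF

open Pool.Agent.Helper52.NF Finset

/-- extension by zero -/
def dimExt {ε : Type} [DecidableEq ε] (E₁ : Finset ε) : (E₁ → ZMod 2) →ₗ[ZMod 2] (ε → ZMod 2) where
  toFun x := fun e => if h : e ∈ E₁ then x ⟨e, h⟩ else 0
  map_add' x y := by
    funext e
    by_cases h : e ∈ E₁ <;> simp [h]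
  map_smul' c x := by
    funext e
    by_cases h : e ∈ E₁ <;> simp [h]

theorem dimExt_inj {ε : Type} [DecidableEq ε] (E₁ : Finset ε) : Function.Injective (dimExt E₁) := by
  intro x y h
  funext e
  have := congrFun h e.1
  simpa [dimExt] using this

/-- the fibre sums -/
def dimFib {ε A : Type} [Fintype ε] [DecidableEq A] (α : ε → A) (A₁ : Finset A) :
    (ε → ZMod 2) →ₗ[ZMod 2] (A₁ → ZMod 2) where
  toFun x := fun a => ∑ e ∈ univ.filter (fun e => α e = a.1), x e
  map_add' x y := by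
    funext a
    simp [Finset.sum_add_distrib]
  map_smul' c x := by
    funext a
    simp [Finset.mul_sum]

theorem dimFib_sum {ε A : Type} [Fintype ε] [DecidableEq ε] [DecidableEq A] (α : ε → A) (A₁ : Finset A)
    (E₁ : Finset ε) (h : ∀ e ∈ E₁, α e ∈ A₁) (x : E₁ → ZMod 2) :
    ∑ a, dimFib α A₁ (dimExt E₁ x) a = ∑ e ∈ E₁, dimExt E₁ x e := by
  have h1 : ∑ a, dimFib α A₁ (dimExt E₁ x) a =
      ∑ a ∈ A₁, ∑ e ∈ univ.filter (fun e => α e = a), dimExt E₁ x e :=
    Finset.sum_coe_sort A₁ (fun a => ∑ e ∈ univ.filter (fun e => α e = a), dimExt E₁ x e)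
  rw [h1, ← Finset.sum_fiberwise_of_maps_to h]
  refine Finset.sum_congr rfl fun a _ => ?_
  symm
  refine Finset.sum_subset (fun e he => ?_) (fun e he hne => ?_)
  · rw [Finset.mem_filter] at he ⊢
    exact ⟨Finset.mem_univ _, he.2⟩
  · rw [Finset.mem_filter] at he hne
    have : e ∉ E₁ := fun h' => hne ⟨h', he.2⟩
    simp [dimExt, this]

theorem dimFib_cyc {ε A : Type} [Fintype ε] [DecidableEq ε] [DecidableEq A] (α : ε → A) (A₁ : Finset A)
    (E₁ : Finset ε) (h : ∀ e ∈ E₁, α e ∈ A₁) (x : E₁ → ZMod 2)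
    (hx : dimFib α A₁ (dimExt E₁ x) = 0) (a : A) :
    ∑ e ∈ univ.filter (fun e => α e = a), dimExt E₁ x e = 0 := by
  by_cases ha : a ∈ A₁
  · exact congrFun hx ⟨a, ha⟩
  · refine Finset.sum_eq_zero fun e he => ?_
    rw [Finset.mem_filter] at he
    have : e ∉ E₁ := fun h' => ha (he.2 ▸ h e h')
    simp [dimExt, this]

theorem hDIM : StDIM := by
  intro ε A B _ _ _ _ α β E₁ A₁ B₁ G hA hE hG
  classical
  -- the map
  let Φ : (E₁ → ZMod 2) →ₗ[ZMod 2] ((A₁ → ZMod 2) × (B₁ → ZMod 2)) :=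
    LinearMap.prod ((dimFib α A₁).comp (dimExt E₁)) ((dimFib β B₁).comp (dimExt E₁))
  let ψ : ((A₁ → ZMod 2) × (B₁ → ZMod 2)) →ₗ[ZMod 2] ZMod 2 :=
    { toFun := fun p => ∑ a, p.1 a + ∑ b, p.2 b
      map_add' := fun p q => by
        simp only [Prod.fst_add, Prod.snd_add, Pi.add_apply, Finset.sum_add_distrib]
        ring
      map_smul' := fun c p => by
        simp only [Prod.smul_fst, Prod.smul_snd, Pi.smul_apply, smul_eq_mul, ← Finset.mul_sum, RingHom.id_apply]
        ring }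
  have hψ : LinearMap.range Φ ≤ LinearMap.ker ψ := by
    rintro _ ⟨x, rfl⟩
    rw [LinearMap.mem_ker]
    show ∑ a, dimFib α A₁ (dimExt E₁ x) a + ∑ b, dimFib β B₁ (dimExt E₁ x) b = 0
    rw [dimFib_sum α A₁ E₁ (fun e he => (hE e he).1), dimFib_sum β B₁ E₁ (fun e he => (hE e he).2)]
    exact CharTwo.add_self_eq_zero _
  have hψ0 : 1 ≤ Module.finrank (ZMod 2) (LinearMap.range ψ) := by
    obtain ⟨a, ha⟩ := hA
    have : LinearMap.range ψ ≠ ⊥ := by
      intro h
      have h1 : ψ (Pi.single ⟨a, ha⟩ 1, 0) ∈ LinearMap.range ψ := ⟨_, rfl⟩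
      rw [h, Submodule.mem_bot] at h1
      have h2 : ψ (Pi.single ⟨a, ha⟩ 1, 0) = 1 := by
        show ∑ a', (Pi.single (⟨a, ha⟩ : A₁) (1 : ZMod 2) : A₁ → ZMod 2) a' + ∑ b : B₁, (0 : ZMod 2) = 1
        simp
      rw [h2] at h1
      exact one_ne_zero h1
    exact Submodule.one_le_finrank_iff.2 this
  have r1 := LinearMap.finrank_range_add_finrank_ker ψ
  have r2 := LinearMap.finrank_range_add_finrank_ker Φ
  have d1 : Module.finrank (ZMod 2) ((A₁ → ZMod 2) × (B₁ → ZMod 2)) = A₁.card + B₁.card := by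
    rw [Module.finrank_prod, Module.finrank_pi, Module.finrank_pi, Fintype.card_coe, Fintype.card_coe]
  have d2 : Module.finrank (ZMod 2) (E₁ → ZMod 2) = E₁.card := by
    rw [Module.finrank_pi, Fintype.card_coe]
  have r3 : Module.finrank (ZMod 2) (LinearMap.range Φ) ≤ Module.finrank (ZMod 2) (LinearMap.ker ψ) :=
    Submodule.finrank_mono hψ
  have r4 : Module.finrank (ZMod 2) (LinearMap.ker Φ) =
      Module.finrank (ZMod 2) ((LinearMap.ker Φ).map (dimExt E₁)) :=
    (LinearEquiv.finrank_eq (Submodule.equivMapOfInjective _ (dimExt_inj E₁) _))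
  have r5 : (LinearMap.ker Φ).map (dimExt E₁) ≤ Submodule.span (ZMod 2) (G : Set (ε → ZMod 2)) := by
    rintro _ ⟨x, hx, rfl⟩
    have hx' : Φ x = 0 := hx
    have hx1 : dimFib α A₁ (dimExt E₁ x) = 0 := congrArg Prod.fst hx'
    have hx2 : dimFib β B₁ (dimExt E₁ x) = 0 := congrArg Prod.snd hx'
    refine hG _ ⟨fun a => dimFib_cyc α A₁ E₁ (fun e he => (hE e he).1) x hx1 a,
      fun b => dimFib_cyc β B₁ E₁ (fun e he => (hE e he).2) x hx2 b⟩ (fun e he => ?_)
    simp [dimExt, he]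
  have r6 : Module.finrank (ZMod 2) ((LinearMap.ker Φ).map (dimExt E₁)) ≤
      Module.finrank (ZMod 2) (Submodule.span (ZMod 2) (G : Set (ε → ZMod 2))) :=
    Submodule.finrank_mono r5
  have r7 : Module.finrank (ZMod 2) (Submodule.span (ZMod 2) (G : Set (ε → ZMod 2))) ≤ G.card :=
    finrank_span_finset_le_card G
  omega

end Pool.Agent.Helper32.NF
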